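import Pool.Agent.Work.MP_ce2d68_st.Interface

set_option autoImplicit false

open Polynomial Filter Topology
open scoped ComplexConjugate

/-! Block `ACHV`: from sequences of polynomials to `Ach` -/

namespace Pool.Agent.Work.MP_ce2d68_st.helper52

open Pool.Agent.Work.MP_ce2d68_st

theorem cp_ne_zero {F : ℤ[X]} (hF : F.Monic) : cp F ≠ 0 := by
  unfold cp
  exact (hF.map _).ne_zero

/-- the Mahler measure is at least the constant coefficient -/
theorem le_MM (F : ℤ[X]) : (|F.coeff 0| : ℝ) ≤ MM F := by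
  have h := norm_coeff_le_choose_mul_mahlerMeasure 0 (cp F)
  rw [Nat.choose_zero_right, Nat.cast_one, one_mul] at h
  refine le_trans (le_of_eq ?_) h
  unfold cp
  rw [coeff_map]
  simp

theorem log_MM_le {F : ℤ[X]} (hF : F.Monic) {T : ℂ → ℝ} (hT : Continuous T) (hT0 : ∀ z, 0 < T z)
    {N : ℕ} (h : ∀ z, ‖ev F z‖ ≤ 3 / 2 * T z ^ N) :
    Real.log (MM F) ≤ Real.log (3 / 2) + N * ca (fun z => Real.log (T z)) := by
  have hF0 := cp_ne_zero hF
  have e1 : Real.log (MM F) = ca (fun z => Real.log ‖ev F z‖) := by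
    unfold MM ca ev
    rw [← logMahlerMeasure_eq_log_MahlerMeasure, logMahlerMeasure_def]
  have hi : CircleIntegrable (fun z => Real.log ‖ev F z‖) 0 1 :=
    intervalIntegrable_mahlerMeasure (cp F)
  -- the modification at the zeros
  let f₂ : ℂ → ℝ := fun z => if ev F z = 0 then Real.log (3 / 2) + N * Real.log (T z) else
    Real.log ‖ev F z‖
  have hco : (fun z => Real.log ‖ev F z‖) =ᶠ[codiscreteWithin (Metric.sphere (0 : ℂ) |1|)] f₂ := by
    have hfin : (rts F : Set ℂ).Finite := (rts F).finite_toSet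
    have h1 : ((rts F : Set ℂ))ᶜ ∈ codiscreteWithin (Metric.sphere (0 : ℂ) |1|) :=
      codiscreteWithin_mono (Set.subset_univ _) hfin.compl_mem_codiscrete
    filter_upwards [h1] with z hz
    have h2 : ev F z ≠ 0 := by
      intro h3
      apply hz
      simp only [rts, Finset.mem_coe, Multiset.mem_toFinset]
      exact (mem_roots hF0).2 h3
    simp only [f₂, if_neg h2]
  have hi2 : CircleIntegrable f₂ 0 1 := hi.congr_codiscreteWithin hco
  have hcT : Continuous (fun z => Real.log (T z)) := hT.log (fun z => (hT0 z).ne')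
  have hi3 : CircleIntegrable (fun z => Real.log (3 / 2) + N * Real.log (T z)) 0 1 :=
    (Continuous.continuousOn (by fun_prop)).circleIntegrable zero_le_one
  have e2 : ca (fun z => Real.log ‖ev F z‖) = ca f₂ :=
    Real.circleAverage_congr_codiscreteWithin hco one_ne_zero
  have hle : ca f₂ ≤ ca (fun z => Real.log (3 / 2) + N * Real.log (T z)) := by
    refine Real.circleAverage_mono hi2 hi3 fun z _ => ?_
    simp only [f₂]
    split_ifs with h3
    · exact le_rfl
    · have h4 : 0 < ‖ev F z‖ := norm_pos_iff.2 h3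
      have h5 := Real.log_le_log h4 (h z)
      rw [Real.log_mul (by norm_num) (pow_pos (hT0 z) N).ne', Real.log_pow] at h5
      exact h5
  have e3 : ca (fun z => Real.log (3 / 2) + N * Real.log (T z)) =
      Real.log (3 / 2) + N * ca (fun z => Real.log (T z)) := by
    unfold ca
    have hc1 : CircleIntegrable (fun _ : ℂ => Real.log (3 / 2)) 0 1 :=
      (Continuous.continuousOn (by fun_prop)).circleIntegrable zero_le_one
    have hc2 : CircleIntegrable (fun z : ℂ => (N : ℝ) * Real.log (T z)) 0 1 :=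
      (Continuous.continuousOn (by fun_prop)).circleIntegrable zero_le_one
    rw [Real.circleAverage_fun_add hc1 hc2, Real.circleAverage_const]
    congr 1
    exact Real.circleAverage_fun_smul (a := (N : ℝ)) (f := fun z => Real.log (T z))
  rw [e1, e2]
  linarith [hle, e3]

theorem stmt_ACHV (_hBAS : Stmt_BAS) : Stmt_ACHV := by
  intro θ n₁ T hn hT hT0 H ε hε D
  obtain ⟨N, hN, F, hF, hdeg, hirr, hc, hz, hb⟩ := H (D + 1 + ⌈1 / ε⌉₊)
  have hn' : (1 : ℝ) ≤ n₁ := by exact_mod_cast hn
  have hN1 : 1 ≤ N := by omega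
  have hND : D ≤ N := by omega
  have hNr : (0 : ℝ) < N := by exact_mod_cast hN1
  have hNe : 1 / ε ≤ N := by
    have h1 : (1 / ε : ℝ) ≤ ⌈1 / ε⌉₊ := Nat.le_ceil _
    have h2 : ((⌈1 / ε⌉₊ : ℕ) : ℝ) ≤ N := by
      exact_mod_cast le_trans (Nat.le_add_left _ _) hN
    linarith
  have hMM : 2 ≤ MM F := by
    have h1 := le_MM F
    have h2 : (2 : ℝ) ≤ |(F.coeff 0 : ℝ)| := by
      have : ((2 : ℤ) : ℝ) ≤ ((|F.coeff 0| : ℤ) : ℝ) := by exact_mod_cast hc
      simpa using this
    linarith
  refine ⟨F, ⟨hF, hirr, ?_, ?_, by linarith⟩, ?_, ?_⟩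
  · rintro rfl
    simp at hc
  · intro z hz'
    apply hz
    simp only [rts, Multiset.mem_toFinset] at hz'
    exact (mem_roots (cp_ne_zero hF)).1 hz'
  · rw [hdeg]
    exact le_trans hND (Nat.le_mul_of_pos_right _ hn)
  · have h1 := log_MM_le hF hT hT0 hb
    unfold lv
    rw [hdeg]
    push_cast
    have hpos : (0 : ℝ) < N * n₁ := by positivity
    rw [div_le_iff₀ hpos]
    have h2 : (ca (fun z => Real.log (T z)) / n₁ + ε) * (N * n₁) =
        N * ca (fun z => Real.log (T z)) + ε * N * n₁ := by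
      field_simp
    rw [h2]
    have h3 : Real.log (3 / 2) ≤ 1 := by
      have := Real.log_le_sub_one_of_pos (x := 3 / 2) (by norm_num)
      linarith
    have h4 : 1 ≤ ε * N := by
      have := mul_le_mul_of_nonneg_left hNe hε.le
      rwa [mul_one_div_cancel hε.ne'] at this
    have h5 : 1 ≤ ε * N * n₁ := by nlinarith
    linarith

end Pool.Agent.Work.MP_ce2d68_st.helper52
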