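import Pool.Agent.Work.MP_ce2d68_st.Interface

set_option autoImplicit false

open Polynomial Filter Topology
open scoped ComplexConjugate

/-! Block `GOL`: the golden ratio is attained at `θ = 0` -/

namespace Pool.Agent.Work.MP_ce2d68_st.helper52

open Pool.Agent.Work.MP_ce2d68_st

theorem gol_monic : (X ^ 2 - 3 * X + 1 : ℤ[X]).Monic := by monicity!

theorem gol_natDegree : (X ^ 2 - 3 * X + 1 : ℤ[X]).natDegree = 2 := by compute_degree!

theorem gol_irr : Irreducible (X ^ 2 - 3 * X + 1 : ℤ[X]) := by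
  rw [Monic.irreducible_iff_roots_eq_zero_of_degree_le_three gol_monic
    (by rw [gol_natDegree]) (by rw [gol_natDegree]; norm_num)]
  rw [Multiset.eq_zero_iff_forall_notMem]
  intro r hr
  have h1 := (mem_roots'.1 hr).2
  have h2 : r ^ 2 - 3 * r + 1 = 0 := by simpa [IsRoot.def] using h1
  have h3 : r * (3 - r) = 1 := by linarith
  rcases Int.isUnit_iff.1 (IsUnit.of_mul_eq_one _ h3) with h | h
  · subst h; norm_num at h2
  · subst h; norm_num at h2

/-- the large root -/
noncomputable def r1 : ℝ := (3 + √5) / 2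
/-- the small root -/
noncomputable def r2 : ℝ := (3 - √5) / 2

theorem sq5 : √5 * √5 = 5 := Real.mul_self_sqrt (by norm_num)

theorem r2_pos : 0 < r2 := by
  unfold r2
  have := sq5
  have h0 := Real.sqrt_nonneg (5 : ℝ)
  nlinarith

theorem r2_lt : r2 ≤ 1 := by
  unfold r2
  have := sq5
  have h0 := Real.sqrt_nonneg (5 : ℝ)
  nlinarith

theorem r1_gt : 1 < r1 := by
  unfold r1
  have h0 := Real.sqrt_nonneg (5 : ℝ)
  linarith

theorem cp_gol : cp (X ^ 2 - 3 * X + 1) = (X - C (r1 : ℂ)) * (X - C (r2 : ℂ)) := by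
  have h1 : (r1 : ℂ) + r2 = 3 := by
    have : r1 + r2 = 3 := by unfold r1 r2; ring
    exact_mod_cast this
  have h2 : (r1 : ℂ) * r2 = 1 := by
    have : r1 * r2 = 1 := by
      unfold r1 r2
      have := sq5
      nlinarith
    exact_mod_cast this
  have e : (X - C (r1 : ℂ)) * (X - C (r2 : ℂ)) =
      X ^ 2 - C ((r1 : ℂ) + r2) * X + C ((r1 : ℂ) * r2) := by
    rw [C_add, C_mul]
    ring
  rw [e, h1, h2]
  unfold cp
  have h3 : (C (3 : ℂ) : ℂ[X]) = 3 := rfl
  simp [h3]

theorem MM_gol : MM (X ^ 2 - 3 * X + 1) = r1 := by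
  unfold MM
  rw [cp_gol, mahlerMeasure_mul, mahlerMeasure_X_sub_C, mahlerMeasure_X_sub_C]
  rw [Complex.norm_real, Complex.norm_real, Real.norm_of_nonneg (by linarith [r1_gt]),
    Real.norm_of_nonneg r2_pos.le, max_eq_right r1_gt.le, max_eq_left r2_lt, mul_one]

theorem r1_eq : r1 = ((1 + √5) / 2) ^ 2 := by
  unfold r1
  have := sq5
  nlinarith

theorem stmt_GOL : Stmt_GOL := by
  refine ⟨⟨gol_monic, gol_irr, ?_, ?_, ?_⟩, ?_⟩
  · intro h
    have h1 := congrArg natDegree h
    rw [gol_natDegree, natDegree_X] at h1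
    norm_num at h1
  · intro z hz
    simp only [rts, Multiset.mem_toFinset] at hz
    have h1 := (mem_roots'.1 hz).2
    rw [cp_gol, IsRoot.def, eval_mul, eval_sub, eval_sub, eval_X, eval_C, eval_C,
      mul_eq_zero] at h1
    rcases h1 with h1 | h1
    · rw [sub_eq_zero.1 h1, Complex.arg_ofReal_of_nonneg (by linarith [r1_gt]), abs_zero]
    · rw [sub_eq_zero.1 h1, Complex.arg_ofReal_of_nonneg r2_pos.le, abs_zero]
  · rw [MM_gol]
    exact r1_gt
  · unfold lv
    rw [MM_gol, gol_natDegree, r1_eq, Real.log_pow]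
    push_cast
    ring

end Pool.Agent.Work.MP_ce2d68_st.helper52
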